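import Mathlib
import Pool.Agent.H554R2.Cnf.Defs
import Pool.Agent.H554R2.Cnf.Count
import Pool.Agent.H554R2.Compl.Greedy

/-!
# Random clauses with a gap
-/

set_option autoImplicit false

open Finset

namespace Pool.Agent.V8H51.RG

open Pool.Agent.H554R2.Sem Pool.Agent.H554R2.Compl Pool.Agent.H554R2.Cnf

theorem rg_mem_CF {n K J : ℕ} (T : Fin J → Fin K → Fin n × Bool) (x : Pt n) :
    x ∈ CF T ↔ ∀ j, ¬ Fails (T j) x := by
  classical
  unfold CF
  simp

/-- the number of the tuples with all entries in a set -/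
theorem rg_card_tuples {α : Type} [Fintype α] (J : ℕ) (p : α → Prop) [DecidablePred p]
    [DecidablePred (fun T : Fin J → α => ∀ j, p (T j))] :
    (univ.filter (fun T : Fin J → α => ∀ j, p (T j))).card = (univ.filter p).card ^ J := by
  have : (univ.filter (fun T : Fin J → α => ∀ j, p (T j))) =
      Fintype.piFinset (fun _ : Fin J => univ.filter p) := by
    ext T
    simp [Fintype.mem_piFinset]
  rw [this, Fintype.card_piFinset]
  simp

theorem rg_or_mask {n : ℕ} (A : Finset (Fin n)) (k k' : Pt n) :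
    (fun u => mask A k u || mask Aᶜ k' u) = merge A k k' := by
  funext u
  unfold mask merge
  by_cases hu : u ∈ A
  · simp [hu]
  · simp [hu]

/-- `(1 - 1 / q) ^ q ≥ 1 / 4` -/
theorem rg_quarter (K : ℕ) (hK : 1 ≤ K) :
    (2 ^ K) ^ (2 ^ K) ≤ 4 * (2 ^ K - 1) ^ (2 ^ K) := by
  obtain ⟨k, rfl⟩ : ∃ k, K = k + 1 := ⟨K - 1, by omega⟩
  obtain ⟨p, hp⟩ : ∃ p : ℕ, p = 2 ^ k := ⟨_, rfl⟩
  have hp0 : 1 ≤ p := by rw [hp]; exact Nat.one_le_two_pow
  have hq : 2 ^ (k + 1) = 2 * p := by rw [hp]; ring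
  rw [hq]
  have hp1 : (0 : ℝ) < 2 * p := by positivity
  have hp2 : (1 : ℝ) ≤ p := by exact_mod_cast hp0
  have h1 : (1 : ℝ) / 2 ≤ (1 + (-1 / (2 * p))) ^ p := by
    have h := one_add_mul_le_pow (a := (-1 / (2 * p) : ℝ)) (by
      rw [le_div_iff₀ hp1]; linarith) p
    have e : 1 + (p : ℝ) * (-1 / (2 * p)) = 1 / 2 := by
      have : (p : ℝ) ≠ 0 := by positivity
      field_simp
      norm_num
    rw [e] at h
    exact h
  have h2 : (2 * p : ℝ) ^ p ≤ 2 * (2 * p - 1) ^ p := by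
    have e : (2 * p - 1 : ℝ) = (2 * p) * (1 + (-1 / (2 * p))) := by
      have : (p : ℝ) ≠ 0 := by positivity
      field_simp
      ring
    have e' : (2 * p - 1 : ℝ) ^ p = (2 * p) ^ p * (1 + (-1 / (2 * p))) ^ p := by
      conv_lhs => rw [e]
      rw [mul_pow]
    rw [e']
    have := mul_le_mul_of_nonneg_left h1 (pow_nonneg hp1.le p)
    linarith
  have h3 : (2 * p) ^ p ≤ 2 * (2 * p - 1) ^ p := by
    have h4 : (((2 * p) ^ p : ℕ) : ℝ) ≤ ((2 * (2 * p - 1) ^ p : ℕ) : ℝ) := by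
      push_cast [Nat.cast_sub (show 1 ≤ 2 * p by omega)]
      exact h2
    exact_mod_cast h4
  calc (2 * p) ^ (2 * p) = ((2 * p) ^ p) ^ 2 := by rw [← pow_mul, mul_comm p 2]
    _ ≤ (2 * (2 * p - 1) ^ p) ^ 2 := Nat.pow_le_pow_left h3 2
    _ = 4 * (2 * p - 1) ^ (2 * p) := by rw [mul_pow, ← pow_mul, mul_comm p 2]; norm_num

/-- `(1 - a / M) ^ M ≤ 2 ^ (- a)` -/
theorem rg_exp (M a : ℕ) (h : a ≤ M) : (M - a) ^ M * 2 ^ a ≤ M ^ M := by
  rcases Nat.eq_zero_or_pos M with h0 | hM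
  · subst h0
    have : a = 0 := by omega
    subst this
    simp
  have hM' : (0 : ℝ) < M := by exact_mod_cast hM
  have h1 : (1 - (a : ℝ) / M) ^ M ≤ Real.exp (-(a : ℝ)) :=
    Real.one_sub_div_pow_le_exp_neg (by exact_mod_cast h)
  have h2 : (2 : ℝ) ^ a ≤ Real.exp a := by
    have h3 : (2 : ℝ) ≤ Real.exp 1 := by
      have := Real.add_one_le_exp (1 : ℝ)
      linarith
    calc (2 : ℝ) ^ a ≤ (Real.exp 1) ^ a := pow_le_pow_left₀ (by norm_num) h3 a
      _ = Real.exp a := by rw [← Real.exp_nat_mul, mul_one]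
  have h4 : ((M : ℝ) - a) ^ M * 2 ^ a ≤ (M : ℝ) ^ M := by
    have e : ((M : ℝ) - a) = M * (1 - (a : ℝ) / M) := by
      field_simp
    rw [e, mul_pow, mul_assoc]
    have h5 : (0 : ℝ) ≤ (1 - (a : ℝ) / M) ^ M := by
      apply pow_nonneg
      rw [sub_nonneg, div_le_one hM']
      exact_mod_cast h
    have h6 : (1 - (a : ℝ) / M) ^ M * 2 ^ a ≤ 1 := by
      calc (1 - (a : ℝ) / M) ^ M * 2 ^ a ≤ Real.exp (-(a : ℝ)) * Real.exp a :=
            mul_le_mul h1 h2 (by positivity) (Real.exp_pos _).le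
        _ = 1 := by rw [← Real.exp_add]; simp
    have h7 := mul_le_mul_of_nonneg_left h6 (pow_nonneg hM'.le M)
    rw [mul_one] at h7
    exact h7
  have h8 : (((M - a) ^ M * 2 ^ a : ℕ) : ℝ) ≤ ((M ^ M : ℕ) : ℝ) := by
    push_cast [Nat.cast_sub h]
    exact h4
  exact_mod_cast h8

theorem rg_card_clause (n K : ℕ) :
    Fintype.card (Fin K → Fin n × Bool) = 2 ^ K * n ^ K := by
  rw [Fintype.card_pi]
  simp only [Fintype.card_prod, Fintype.card_bool, prod_const, card_univ, Fintype.card_fin]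
  rw [mul_pow, mul_comm]

open Classical in
theorem rg_one (n K : ℕ) (x : Pt n) :
    (univ.filter (fun τ : Fin K → Fin n × Bool => ¬ Fails τ x)).card = (2 ^ K - 1) * n ^ K := by
  have h1 := Finset.card_filter_add_card_filter_not
    (s := (univ : Finset (Fin K → Fin n × Bool))) (fun τ => Fails τ x)
  rw [cnf1_one, card_univ, rg_card_clause] at h1
  rw [Nat.sub_mul, one_mul]
  omega

open Classical in
/-- the expectation -/
theorem rg_sum_CF {n K J L : ℕ} (hK2 : 2 ≤ K) (hJ : J = 4 * L * 2 ^ K) :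
    2 ^ n * (2 ^ K * n ^ K) ^ J ≤
      2 ^ (8 * L) * ∑ T : Fin J → Fin K → Fin n × Bool, (CF T).card := by
  have h1 : ∑ T : Fin J → Fin K → Fin n × Bool, (CF T).card =
      ∑ x : Pt n, (univ.filter (fun τ : Fin K → Fin n × Bool => ¬ Fails τ x)).card ^ J := by
    unfold CF
    simp only [Finset.card_filter]
    rw [Finset.sum_comm]
    refine Finset.sum_congr rfl fun x _ => ?_
    have := rg_card_tuples J (fun τ : Fin K → Fin n × Bool => ¬ Fails τ x)
    rw [Finset.card_filter, Finset.card_filter] at this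
    exact this
  rw [h1]
  have h2 : ∀ x ∈ (univ : Finset (Pt n)), (2 ^ K * n ^ K) ^ J ≤
      2 ^ (8 * L) *
        (univ.filter (fun τ : Fin K → Fin n × Bool => ¬ Fails τ x)).card ^ J := by
    intro x _
    rw [rg_one, mul_pow, mul_pow (2 ^ K - 1), ← mul_assoc]
    apply Nat.mul_le_mul_right
    have h3 := Nat.pow_le_pow_left (rg_quarter K (by omega)) (4 * L)
    have e1 : 2 ^ K * (4 * L) = J := by rw [hJ]; ring
    obtain ⟨q, hq⟩ : ∃ q : ℕ, q = 2 ^ K := ⟨_, rfl⟩
    rw [← hq] at h3 e1 ⊢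
    rw [mul_pow, ← pow_mul, ← pow_mul, e1] at h3
    have e2 : (4 : ℕ) ^ (4 * L) = 2 ^ (8 * L) := by
      rw [show (4 : ℕ) = 2 ^ 2 by norm_num, ← pow_mul]
      congr 1
      ring
    rw [← e2]
    exact h3
  have h3 := Finset.sum_le_sum h2
  rw [Finset.sum_const, smul_eq_mul, ← Finset.mul_sum] at h3
  have h4 : (univ : Finset (Pt n)).card = 2 ^ n := by
    rw [card_univ, Fintype.card_pi]
    simp only [Fintype.card_bool, prod_const, card_univ, Fintype.card_fin]
  rw [h4] at h3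
  exact h3


open Classical in
/-- The points which violate fewer than `g` of the clauses `T j`. -/
noncomputable def CG {n K J : ℕ} (g : ℕ) (T : Fin J → Fin K → Fin n × Bool) : Finset (Pt n) :=
  univ.filter (fun x => (univ.filter (fun j => Fails (T j) x)).card < g)

open Classical in
theorem mem_CG {n K J : ℕ} (g : ℕ) (T : Fin J → Fin K → Fin n × Bool) (x : Pt n) :
    x ∈ CG g T ↔ (univ.filter (fun j => Fails (T j) x)).card < g := by
  unfold CG
  simp

/-- sums of products over all tuples -/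
theorem rg_prod {α : Type} [Fintype α] (J : ℕ) (f : α → ℕ) :
    ∑ T : Fin J → α, ∏ j, f (T j) = (∑ τ, f τ) ^ J := by
  have h := Finset.prod_univ_sum (fun _ : Fin J => (univ : Finset α)) (fun _ τ => f τ)
  rw [Finset.prod_const, Finset.card_univ, Fintype.card_fin] at h
  rw [h, Fintype.piFinset_univ]

open Classical in
/-- few tuples have few entries in a set -/
theorem rg_tail {α : Type} [Fintype α] (J t : ℕ) (ht : t ≤ J) (S : Finset α) :
    (univ.filter (fun T : Fin J → α => (univ.filter (fun j => T j ∈ S)).card ≤ t)).card *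
      2 ^ (J - t) ≤ (2 * Fintype.card α - S.card) ^ J := by
  have h1 : ∑ τ : α, (if τ ∈ S then 1 else 2) = 2 * Fintype.card α - S.card := by
    have h2 : ∑ τ : α, (if τ ∈ S then 1 else 2) + S.card = 2 * Fintype.card α := by
      have h3 : S.card = ∑ τ : α, (if τ ∈ S then 1 else 0) := by
        rw [← Finset.card_filter]
        congr 1
        ext τ
        simp
      rw [h3, ← Finset.sum_add_distrib]
      have h4 : ∀ τ : α, ((if τ ∈ S then 1 else 2) + (if τ ∈ S then 1 else 0) : ℕ) = 2 := by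
        intro τ
        split_ifs <;> rfl
      rw [Finset.sum_congr rfl (fun τ _ => h4 τ), Finset.sum_const, Finset.card_univ, smul_eq_mul,
        mul_comm]
    omega
  rw [← h1, ← rg_prod J (fun τ => if τ ∈ S then 1 else 2)]
  rw [← smul_eq_mul, ← Finset.sum_const]
  refine (Finset.sum_le_sum (f := fun _ => 2 ^ (J - t)) (g := fun T : Fin J → α =>
    ∏ j, (if T j ∈ S then 1 else 2)) ?_).trans (Finset.sum_le_sum_of_subset (filter_subset _ _))
  intro T hT
  have hT' := (Finset.mem_filter.1 hT).2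
  have h5 : ∏ j, (if T j ∈ S then 1 else 2) = 2 ^ (univ.filter (fun j => ¬ T j ∈ S)).card := by
    rw [Finset.prod_ite]
    simp
  rw [h5]
  apply Nat.pow_le_pow_right (by norm_num)
  have h6 := Finset.card_filter_add_card_filter_not (s := (univ : Finset (Fin J)))
    (fun j => T j ∈ S)
  rw [Finset.card_univ, Fintype.card_fin] at h6
  omega

open Classical in
/-- the number of the families of clauses few of which fail on the union of two disjoint spread
families -/
theorem rg_pass {n K J g m w : ℕ} (hmK : m ^ 2 ≤ 4 * 2 ^ K) (hJ : J = 16 * g * 2 ^ K)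
    (hK : m * (n - w) ^ K ≤ n ^ K) (x y : Fin m → Pt n)
    (hdis : ∀ i j, ∀ u, ¬ (x i u = true ∧ y j u = true)) (hx : Spread w x) (hy : Spread w y) :
    (univ.filter (fun T : Fin J → Fin K → Fin n × Bool =>
      (univ.filter (fun j' => ∃ i j, Fails (T j') (fun u => x i u || y j u))).card ≤
        m ^ 2 * g)).card * 2 ^ (m ^ 2 * g) ≤ (2 ^ K * n ^ K) ^ J := by
  have h0 := many_fail (K := K) x y hdis hx hy hK
  obtain ⟨S, hS⟩ : ∃ S : Finset (Fin K → Fin n × Bool), S =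
    univ.filter (fun τ : Fin K → Fin n × Bool =>
      ∃ i j, Fails τ (fun u => x i u || y j u)) := ⟨_, rfl⟩
  rw [← hS] at h0
  have hle : m ^ 2 * g ≤ J := by
    rw [hJ]
    calc m ^ 2 * g ≤ 4 * 2 ^ K * g := Nat.mul_le_mul_right _ hmK
      _ ≤ 16 * 2 ^ K * g := Nat.mul_le_mul_right _ (Nat.mul_le_mul_right _ (by norm_num))
      _ = 16 * g * 2 ^ K := by ring
  have h1 := rg_tail J (m ^ 2 * g) hle S
  rw [rg_card_clause] at h1
  have h2 : (univ.filter (fun T : Fin J → Fin K → Fin n × Bool =>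
      (univ.filter (fun j' => ∃ i j, Fails (T j') (fun u => x i u || y j u))).card ≤
        m ^ 2 * g)) = (univ.filter (fun T : Fin J → Fin K → Fin n × Bool =>
          (univ.filter (fun j => T j ∈ S)).card ≤ m ^ 2 * g)) := by
    ext T
    simp only [mem_filter, mem_univ, true_and, hS]
  rw [h2]
  obtain ⟨Z, hZ⟩ : ∃ Z : ℕ, Z = (univ.filter (fun T : Fin J → Fin K → Fin n × Bool =>
          (univ.filter (fun j => T j ∈ S)).card ≤ m ^ 2 * g)).card := ⟨_, rfl⟩
  replace h1 : Z * 2 ^ (J - m ^ 2 * g) ≤ (2 * (2 ^ K * n ^ K) - S.card) ^ J := by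
    rw [hZ]
    convert h1
  rw [← hZ]
  obtain ⟨q, hq⟩ : ∃ q : ℕ, q = 2 ^ K := ⟨_, rfl⟩
  obtain ⟨N, hN⟩ : ∃ N : ℕ, N = n ^ K := ⟨_, rfl⟩
  rw [← hq] at h1 hmK hJ ⊢
  rw [← hN] at h0 h1 ⊢
  have hq0 : 0 < q := by rw [hq]; positivity
  have h3 : (8 * q) * (2 * (q * N) - S.card) ≤ (8 * q - m ^ 2) * (2 * (q * N)) := by
    rw [Nat.mul_sub, Nat.sub_mul]
    have h4 : m ^ 2 * (2 * (q * N)) ≤ 8 * q * S.card := by
      have := Nat.mul_le_mul_left (2 * q) h0
      nlinarith [this]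
    omega
  have h5 := Nat.pow_le_pow_left h3 (8 * q)
  rw [mul_pow, mul_pow (8 * q - m ^ 2)] at h5
  have h6 := rg_exp (8 * q) (m ^ 2) (by omega)
  have h7 : (8 * q) ^ (8 * q) * ((2 * (q * N) - S.card) ^ (8 * q) * 2 ^ (m ^ 2)) ≤
      (8 * q) ^ (8 * q) * (2 * (q * N)) ^ (8 * q) := by
    calc (8 * q) ^ (8 * q) * ((2 * (q * N) - S.card) ^ (8 * q) * 2 ^ (m ^ 2))
        = ((8 * q) ^ (8 * q) * (2 * (q * N) - S.card) ^ (8 * q)) * 2 ^ (m ^ 2) := by ring
      _ ≤ ((8 * q - m ^ 2) ^ (8 * q) * (2 * (q * N)) ^ (8 * q)) * 2 ^ (m ^ 2) :=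
          Nat.mul_le_mul_right _ h5
      _ = ((8 * q - m ^ 2) ^ (8 * q) * 2 ^ (m ^ 2)) * (2 * (q * N)) ^ (8 * q) := by ring
      _ ≤ (8 * q) ^ (8 * q) * (2 * (q * N)) ^ (8 * q) := Nat.mul_le_mul_right _ h6
  have h8 := Nat.le_of_mul_le_mul_left h7 (by positivity)
  have h9 := Nat.pow_le_pow_left h8 (2 * g)
  have hJ' : 8 * q * (2 * g) = J := by rw [hJ]; ring
  rw [mul_pow, ← pow_mul, ← pow_mul, ← pow_mul, hJ', mul_pow 2 (q * N) J] at h9
  -- combine
  have h10 : 2 ^ (J - m ^ 2 * g) * 2 ^ (m ^ 2 * g) = 2 ^ J := by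
    rw [← pow_add]
    congr 1
    omega
  have h11 : 2 ^ J * (Z * 2 ^ (m ^ 2 * g)) ≤ 2 ^ J * (q * N) ^ J := by
    calc 2 ^ J * (Z * 2 ^ (m ^ 2 * g))
        = (Z * 2 ^ (J - m ^ 2 * g)) * 2 ^ (m ^ 2 * (2 * g)) := by
          rw [← h10, show m ^ 2 * (2 * g) = m ^ 2 * g + m ^ 2 * g by ring, pow_add]
          ring
      _ ≤ (2 * (q * N) - S.card) ^ J * 2 ^ (m ^ 2 * (2 * g)) := Nat.mul_le_mul_right _ h1
      _ ≤ 2 ^ J * (q * N) ^ J := h9
  exact Nat.le_of_mul_le_mul_left h11 (by positivity)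

open Classical in
/-- the union bound -/
theorem rg_bad {n K J g m w r : ℕ} (hmK : m ^ 2 ≤ 4 * 2 ^ K)
    (hJ : J = 16 * g * 2 ^ K) (hK : m * (n - w) ^ K ≤ n ^ K)
    (hr : 2 ^ m * ∑ j ∈ range w, n.choose j < r) :
    (univ.filter (fun T : Fin J → Fin K → Fin n × Bool => ¬ NoRect (CG g T) r)).card *
      2 ^ (m ^ 2 * g) ≤ 2 ^ (2 * m * n) * (2 ^ K * n ^ K) ^ J := by
  obtain ⟨G, hG⟩ : ∃ G : Finset ((Fin m → Pt n) × (Fin m → Pt n)), G =
      univ.filter (fun p => (∀ i j, ∀ u, ¬ (p.1 i u = true ∧ p.2 j u = true)) ∧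
        Spread w p.1 ∧ Spread w p.2) := ⟨_, rfl⟩
  have hsub : (univ.filter (fun T : Fin J → Fin K → Fin n × Bool => ¬ NoRect (CG g T) r)) ⊆
      G.biUnion (fun p => univ.filter (fun T : Fin J → Fin K → Fin n × Bool =>
        (univ.filter (fun j' => ∃ i j, Fails (T j') (fun u => p.1 i u || p.2 j u))).card ≤
        m ^ 2 * g)) := by
    intro T hT
    rw [mem_filter] at hT
    have h := hT.2
    unfold NoRect at h
    push Not at h
    obtain ⟨A, X, hX, hA1, hA2⟩ := h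
    obtain ⟨x, hx1, hx2⟩ := exists_spread _ (lt_of_lt_of_le hr hA1)
    obtain ⟨y, hy1, hy2⟩ := exists_spread _ (lt_of_lt_of_le hr hA2)
    rw [mem_biUnion]
    refine ⟨(x, y), ?_, ?_⟩
    · rw [hG, mem_filter]
      refine ⟨mem_univ _, ?_, hx2, hy2⟩
      rintro i j u ⟨h1, h2⟩
      obtain ⟨k, _, hk⟩ := mem_image.1 (hx1 i)
      obtain ⟨k', _, hk'⟩ := mem_image.1 (hy1 j)
      simp only at h1 h2
      rw [← hk] at h1
      rw [← hk'] at h2
      unfold mask at h1 h2
      by_cases hu : u ∈ A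
      · simp [hu] at h2
      · simp [hu] at h1
    · rw [mem_filter]
      refine ⟨mem_univ _, ?_⟩
      have hsub2 : (univ.filter (fun j' => ∃ i j, Fails (T j') (fun u => x i u || y j u))) ⊆
          (univ : Finset (Fin m × Fin m)).biUnion (fun p =>
            univ.filter (fun j' => Fails (T j') (fun u => x p.1 u || y p.2 u))) := by
        intro j' hj'
        obtain ⟨i, j, hij⟩ := (mem_filter.1 hj').2
        rw [mem_biUnion]
        exact ⟨(i, j), mem_univ _, mem_filter.2 ⟨mem_univ _, hij⟩⟩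
      refine (card_le_card hsub2).trans (card_biUnion_le.trans ?_)
      have hb : ∀ p ∈ (univ : Finset (Fin m × Fin m)),
          (univ.filter (fun j' => Fails (T j') (fun u => x p.1 u || y p.2 u))).card ≤ g := by
        intro p _
        obtain ⟨k, hkK, hk⟩ := mem_image.1 (hx1 p.1)
        obtain ⟨k', hkK', hk'⟩ := mem_image.1 (hy1 p.2)
        have hm := hX k hkK k' hkK'
        rw [mem_CG] at hm
        rw [← rg_or_mask, hk, hk'] at hm
        exact hm.le
      refine (Finset.sum_le_card_nsmul _ _ _ hb).trans (le_of_eq ?_)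
      rw [Finset.card_univ, Fintype.card_prod, Fintype.card_fin, smul_eq_mul]
      ring
  refine (Nat.mul_le_mul_right _ ((card_le_card hsub).trans card_biUnion_le)).trans ?_
  rw [Finset.sum_mul]
  have h2 : ∀ p ∈ G, (univ.filter (fun T : Fin J → Fin K → Fin n × Bool =>
        (univ.filter (fun j' => ∃ i j, Fails (T j') (fun u => p.1 i u || p.2 j u))).card ≤
        m ^ 2 * g)).card * 2 ^ (m ^ 2 * g) ≤ (2 ^ K * n ^ K) ^ J := by
    intro p hp
    rw [hG, mem_filter] at hp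
    exact rg_pass hmK hJ hK p.1 p.2 hp.2.1 hp.2.2.1 hp.2.2.2
  refine (Finset.sum_le_sum h2).trans ?_
  rw [Finset.sum_const, smul_eq_mul]
  have h3 : G.card ≤ 2 ^ (2 * m * n) := by
    refine (Finset.card_le_univ G).trans (le_of_eq ?_)
    rw [Fintype.card_prod, Fintype.card_pi]
    simp only [Fintype.card_pi, Fintype.card_bool, prod_const, card_univ, Fintype.card_fin]
    rw [← pow_mul, ← pow_add]
    congr 1
    ring
  exact Nat.mul_le_mul_right _ h3

end Pool.Agent.V8H51.RG
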