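import Pool.Agent.V8H51.RG.Clauses

/-!
# Existence of clauses with a gap
-/

set_option autoImplicit false

open Finset

namespace Pool.Agent.V8H51.RG

open Pool.Agent.H554R2.Sem Pool.Agent.H554R2.Compl Pool.Agent.H554R2.Cnf

open Classical in
/-- The number of the literals which belong to variables in `Y`. -/
noncomputable def touch {n K J : ℕ} (T : Fin J → Fin K → Fin n × Bool) (Y : Finset (Fin n)) : ℕ :=
  (univ.filter (fun p : Fin J × Fin K => (T p.1 p.2).1 ∈ Y)).card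

theorem rg_exp2 (n a M : ℕ) (hn : 0 < n) (h : a * M ≤ n * n) : (n + a) ^ M ≤ 4 ^ n * n ^ M := by
  have hnR : (0 : ℝ) < n := by exact_mod_cast hn
  have h1 : (1 + (a : ℝ) / n) ^ M ≤ 4 ^ n := by
    have h2 : 1 + (a : ℝ) / n ≤ Real.exp ((a : ℝ) / n) := by
      have := Real.add_one_le_exp ((a : ℝ) / n)
      linarith
    calc (1 + (a : ℝ) / n) ^ M ≤ (Real.exp ((a : ℝ) / n)) ^ M :=
          pow_le_pow_left₀ (by positivity) h2 _
      _ = Real.exp (M * ((a : ℝ) / n)) := by rw [← Real.exp_nat_mul]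
      _ ≤ Real.exp n := by
          apply Real.exp_le_exp.2
          rw [← mul_div_assoc, div_le_iff₀ hnR]
          have : ((a * M : ℕ) : ℝ) ≤ ((n * n : ℕ) : ℝ) := by exact_mod_cast h
          push_cast at this
          linarith
      _ = (Real.exp 1) ^ n := by rw [← Real.exp_nat_mul, mul_one]
      _ ≤ 4 ^ n := by
          apply pow_le_pow_left₀ (Real.exp_pos _).le
          have := Real.exp_one_lt_d9
          linarith
  have h3 : ((n : ℝ) + a) ^ M ≤ 4 ^ n * (n : ℝ) ^ M := by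
    have e : (n : ℝ) + a = n * (1 + (a : ℝ) / n) := by field_simp
    rw [e, mul_pow, mul_comm]
    exact mul_le_mul_of_nonneg_right h1 (by positivity)
  exact_mod_cast h3

open Classical in
theorem rg_small {n K J A h w₂ : ℕ} (hn : 0 < n) (Y : Finset (Fin n)) (hY : Y.card ≤ w₂)
    (hc : 2 ^ A * w₂ * (K * J) ≤ n * n) :
    (univ.filter (fun T : Fin J → Fin K → Fin n × Bool => h ≤ touch T Y)).card * 2 ^ (A * h) ≤
      4 ^ n * (2 ^ K * n ^ K) ^ J := by
  obtain ⟨f, hf⟩ : ∃ f : Fin n × Bool → ℕ, ∀ l, f l = if l.1 ∈ Y then 2 ^ A else 1 :=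
    ⟨_, fun l => rfl⟩
  have h1 : ∑ T : Fin J → Fin K → Fin n × Bool, ∏ j, ∏ s, f (T j s) =
      ((∑ l, f l) ^ K) ^ J := by
    rw [rg_prod J (fun τ : Fin K → Fin n × Bool => ∏ s, f (τ s)), rg_prod K f]
  have h2 : ∑ l, f l ≤ 2 * (n + 2 ^ A * w₂) := by
    rw [Fintype.sum_prod_type]
    have h3 : ∀ i : Fin n, ∑ b : Bool, f (i, b) = 2 * (if i ∈ Y then 2 ^ A else 1) := by
      intro i
      rw [Fintype.sum_bool, hf, hf]
      ring
    rw [Finset.sum_congr rfl (fun i _ => h3 i), ← Finset.mul_sum]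
    apply Nat.mul_le_mul_left
    calc ∑ i : Fin n, (if i ∈ Y then 2 ^ A else 1)
        ≤ ∑ i : Fin n, (1 + (if i ∈ Y then 2 ^ A else 0)) := by
          refine Finset.sum_le_sum fun i _ => ?_
          split_ifs <;> omega
      _ = n + Y.card * 2 ^ A := by
          rw [Finset.sum_add_distrib, ← Finset.sum_filter, Finset.sum_const, Finset.sum_const,
            Finset.card_univ, Fintype.card_fin, smul_eq_mul, smul_eq_mul, mul_one]
          congr 2
          congr 1
          ext i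
          simp
      _ ≤ n + 2 ^ A * w₂ := by
          rw [mul_comm]
          exact Nat.add_le_add_left (Nat.mul_le_mul_left _ hY) _
  have h4 : (univ.filter (fun T : Fin J → Fin K → Fin n × Bool => h ≤ touch T Y)).card *
      2 ^ (A * h) ≤ ((∑ l, f l) ^ K) ^ J := by
    rw [← h1, ← smul_eq_mul, ← Finset.sum_const]
    refine (Finset.sum_le_sum (f := fun _ => 2 ^ (A * h)) (g := fun T : Fin J → Fin K →
      Fin n × Bool => ∏ j, ∏ s, f (T j s)) ?_).trans
      (Finset.sum_le_sum_of_subset (filter_subset _ _))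
    intro T hT
    have hT' := (Finset.mem_filter.1 hT).2
    have h5 : ∏ j, ∏ s, f (T j s) = (2 ^ A) ^ touch T Y := by
      rw [← Finset.prod_product', touch]
      rw [Finset.prod_congr rfl (fun p _ => hf (T p.1 p.2)), Finset.prod_ite]
      simp
    rw [h5, ← pow_mul]
    exact Nat.pow_le_pow_right (by norm_num) (Nat.mul_le_mul_left _ hT')
  refine h4.trans ?_
  rw [← pow_mul]
  calc (∑ l, f l) ^ (K * J) ≤ (2 * (n + 2 ^ A * w₂)) ^ (K * J) := Nat.pow_le_pow_left h2 _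
    _ = 2 ^ (K * J) * (n + 2 ^ A * w₂) ^ (K * J) := mul_pow _ _ _
    _ ≤ 2 ^ (K * J) * (4 ^ n * n ^ (K * J)) := Nat.mul_le_mul_left _ (rg_exp2 _ _ _ hn hc)
    _ = 4 ^ n * (2 ^ K * n ^ K) ^ J := by
        rw [mul_pow, ← pow_mul, ← pow_mul]
        ring

open Classical in
theorem rg_bad2 {n K J A h w₂ : ℕ} (hn : 0 < n) (hc : 2 ^ A * w₂ * (K * J) ≤ n * n) :
    (univ.filter (fun T : Fin J → Fin K → Fin n × Bool =>
      ∃ Y : Finset (Fin n), Y.card ≤ w₂ ∧ h ≤ touch T Y)).card * 2 ^ (A * h) ≤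
      2 ^ (3 * n) * (2 ^ K * n ^ K) ^ J := by
  have hsub : (univ.filter (fun T : Fin J → Fin K → Fin n × Bool =>
      ∃ Y : Finset (Fin n), Y.card ≤ w₂ ∧ h ≤ touch T Y)) ⊆
      ((univ : Finset (Finset (Fin n))).filter (fun Y => Y.card ≤ w₂)).biUnion (fun Y =>
        univ.filter (fun T : Fin J → Fin K → Fin n × Bool => h ≤ touch T Y)) := by
    intro T hT
    obtain ⟨Y, hY1, hY2⟩ := (mem_filter.1 hT).2
    rw [mem_biUnion]
    exact ⟨Y, mem_filter.2 ⟨mem_univ _, hY1⟩, mem_filter.2 ⟨mem_univ _, hY2⟩⟩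
  refine (Nat.mul_le_mul_right _ ((card_le_card hsub).trans card_biUnion_le)).trans ?_
  rw [Finset.sum_mul]
  refine (Finset.sum_le_sum (fun Y hY => rg_small hn Y (mem_filter.1 hY).2 hc)).trans ?_
  rw [Finset.sum_const, smul_eq_mul]
  have h3 : ((univ : Finset (Finset (Fin n))).filter (fun Y => Y.card ≤ w₂)).card ≤ 2 ^ n := by
    refine (Finset.card_filter_le _ _).trans (le_of_eq ?_)
    rw [Finset.card_univ, Fintype.card_finset, Fintype.card_fin]
  calc _ ≤ 2 ^ n * (4 ^ n * (2 ^ K * n ^ K) ^ J) := Nat.mul_le_mul_right _ h3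
    _ = _ := by
      rw [← mul_assoc]
      congr 1
      rw [show (4 : ℕ) = 2 ^ 2 by norm_num, ← pow_mul, ← pow_add]
      congr 1
      ring

open Classical in
/-- there are clauses which define a large set, such that the set of the points which violate few
of them has no large combinatorial rectangles, and small sets of variables occur in few of them -/
theorem rg_exists {n K J g m w r A h w₂ : ℕ} (hn : 0 < n) (hK2 : 2 ≤ K)
    (hmK : m ^ 2 ≤ 4 * 2 ^ K) (hJ : J = 16 * g * 2 ^ K)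
    (hK : m * (n - w) ^ K ≤ n ^ K)
    (hL1 : 2 * m * n + 32 * g + n + 4 ≤ m ^ 2 * g)
    (hL2 : 3 * n + 32 * g + n + 4 ≤ A * h)
    (hr : 2 ^ m * ∑ j ∈ range w, n.choose j < r)
    (hc : 2 ^ A * w₂ * (K * J) ≤ n * n) :
    ∃ T : Fin J → Fin K → Fin n × Bool, 2 ^ n ≤ 2 ^ (32 * g + 1) * (CF T).card ∧
      NoRect (CG g T) r ∧ ∀ Y : Finset (Fin n), Y.card ≤ w₂ → touch T Y < h := by
  by_contra hcon
  push Not at hcon
  obtain ⟨Ω, hΩ⟩ : ∃ Ω : ℕ, Ω = (2 ^ K * n ^ K) ^ J := ⟨_, rfl⟩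
  have hΩ0 : 0 < Ω := by rw [hΩ]; positivity
  have hexp := rg_sum_CF (n := n) (J := J) (L := 4 * g) hK2 (by rw [hJ]; ring)
  have hbad1 := rg_bad (n := n) hmK hJ hK hr
  have hbad2 := rg_bad2 (n := n) (K := K) (J := J) (h := h) hn hc
  rw [← hΩ] at hexp hbad1 hbad2
  rw [show 8 * (4 * g) = 32 * g by ring] at hexp
  obtain ⟨Bad, hBad⟩ : ∃ Bad : (Fin J → Fin K → Fin n × Bool) → Prop, ∀ T, Bad T ↔
    (¬ NoRect (CG g T) r ∨ ∃ Y : Finset (Fin n), Y.card ≤ w₂ ∧ h ≤ touch T Y) :=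
    ⟨_, fun T => Iff.rfl⟩
  obtain ⟨B, hB⟩ : ∃ B : ℕ, B = (univ.filter (fun T : Fin J → Fin K → Fin n × Bool =>
    Bad T)).card := ⟨_, rfl⟩
  have hpos : 0 < 2 ^ (32 * g + n + 4) := by positivity
  have hB1 : (univ.filter (fun T : Fin J → Fin K → Fin n × Bool =>
      ¬ NoRect (CG g T) r)).card * 2 ^ (32 * g + n + 4) ≤ Ω := by
    have h1 : 2 ^ (2 * m * n) * 2 ^ (32 * g + n + 4) ≤ 2 ^ (m ^ 2 * g) := by
      rw [← pow_add]
      exact Nat.pow_le_pow_right (by norm_num) (by omega)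
    generalize (univ.filter (fun T : Fin J → Fin K → Fin n × Bool =>
      ¬ NoRect (CG g T) r)).card = b at *
    have h2 : 2 ^ (2 * m * n) * (b * 2 ^ (32 * g + n + 4)) ≤ 2 ^ (2 * m * n) * Ω := by
      calc 2 ^ (2 * m * n) * (b * 2 ^ (32 * g + n + 4))
          = b * (2 ^ (2 * m * n) * 2 ^ (32 * g + n + 4)) := by ring
        _ ≤ b * 2 ^ (m ^ 2 * g) := Nat.mul_le_mul_left _ h1
        _ ≤ _ := hbad1
    exact Nat.le_of_mul_le_mul_left h2 (by positivity)
  have hB2 : (univ.filter (fun T : Fin J → Fin K → Fin n × Bool =>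
      ∃ Y : Finset (Fin n), Y.card ≤ w₂ ∧ h ≤ touch T Y)).card * 2 ^ (32 * g + n + 4) ≤ Ω := by
    have h1 : 2 ^ (3 * n) * 2 ^ (32 * g + n + 4) ≤ 2 ^ (A * h) := by
      rw [← pow_add]
      exact Nat.pow_le_pow_right (by norm_num) (by omega)
    generalize (univ.filter (fun T : Fin J → Fin K → Fin n × Bool =>
      ∃ Y : Finset (Fin n), Y.card ≤ w₂ ∧ h ≤ touch T Y)).card = b at *
    have h2 : 2 ^ (3 * n) * (b * 2 ^ (32 * g + n + 4)) ≤ 2 ^ (3 * n) * Ω := by
      calc 2 ^ (3 * n) * (b * 2 ^ (32 * g + n + 4))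
          = b * (2 ^ (3 * n) * 2 ^ (32 * g + n + 4)) := by ring
        _ ≤ b * 2 ^ (A * h) := Nat.mul_le_mul_left _ h1
        _ ≤ _ := hbad2
    exact Nat.le_of_mul_le_mul_left h2 (by positivity)
  have hB3 : B * 2 ^ (32 * g + n + 3) ≤ Ω := by
    have h1 : B ≤ (univ.filter (fun T : Fin J → Fin K → Fin n × Bool =>
        ¬ NoRect (CG g T) r)).card + (univ.filter (fun T : Fin J → Fin K → Fin n × Bool =>
        ∃ Y : Finset (Fin n), Y.card ≤ w₂ ∧ h ≤ touch T Y)).card := by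
      rw [hB]
      refine le_trans (card_le_card ?_) (card_union_le _ _)
      intro T hT
      rw [mem_filter] at hT
      rw [mem_union, mem_filter, mem_filter]
      rcases (hBad T).1 hT.2 with h | h
      · exact Or.inl ⟨mem_univ _, h⟩
      · exact Or.inr ⟨mem_univ _, h⟩
    have h2 : B * 2 ^ (32 * g + n + 4) ≤ 2 * Ω := by
      refine (Nat.mul_le_mul_right _ h1).trans ?_
      rw [add_mul]
      omega
    have h3 : B * 2 ^ (32 * g + n + 4) = 2 * (B * 2 ^ (32 * g + n + 3)) := by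
      rw [show 32 * g + n + 4 = (32 * g + n + 3) + 1 by ring, pow_succ]
      ring
    omega
  have hcard : Fintype.card (Fin J → Fin K → Fin n × Bool) = Ω := by
    rw [hΩ, Fintype.card_pi]
    simp only [rg_card_clause, prod_const, card_univ, Fintype.card_fin]
  have hCF : ∀ T : Fin J → Fin K → Fin n × Bool, (CF T).card ≤ 2 ^ n := by
    intro T
    refine (Finset.card_le_univ _).trans (le_of_eq ?_)
    rw [Fintype.card_pi]
    simp only [Fintype.card_bool, prod_const, card_univ, Fintype.card_fin]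
  have hsum : 2 ^ (32 * g + 1) * ∑ T : Fin J → Fin K → Fin n × Bool, (CF T).card ≤
      Ω * 2 ^ n + B * (2 ^ (32 * g + 1) * 2 ^ n) := by
    rw [Finset.mul_sum]
    have h1 : ∀ T ∈ (univ : Finset (Fin J → Fin K → Fin n × Bool)),
        2 ^ (32 * g + 1) * (CF T).card ≤
        2 ^ n + (if Bad T then 2 ^ (32 * g + 1) * 2 ^ n else 0) := by
      intro T _
      by_cases hT : Bad T
      · rw [if_pos hT]
        have := Nat.mul_le_mul_left (2 ^ (32 * g + 1)) (hCF T)
        exact this.trans (Nat.le_add_left _ _)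
      · rw [if_neg hT, add_zero]
        by_contra hlt
        apply hT
        rw [hBad]
        by_cases hN : NoRect (CG g T) r
        · exact Or.inr (hcon T (by omega) hN)
        · exact Or.inl hN
    refine (Finset.sum_le_sum h1).trans (le_of_eq ?_)
    rw [Finset.sum_add_distrib, Finset.sum_const, ← Finset.sum_filter, Finset.sum_const,
      smul_eq_mul, smul_eq_mul, Finset.card_univ, hcard, ← hB]
  have e1 : 2 ^ (32 * g + 1) * ∑ T : Fin J → Fin K → Fin n × Bool, (CF T).card =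
      2 * (2 ^ (32 * g) * ∑ T : Fin J → Fin K → Fin n × Bool, (CF T).card) := by
    rw [pow_succ 2 (32 * g)]; ring
  have e2 : 4 * (B * (2 ^ (32 * g + 1) * 2 ^ n)) = B * 2 ^ (32 * g + n + 3) := by
    rw [show 32 * g + n + 3 = (32 * g + 1) + n + 2 by ring, pow_add, pow_add]; ring
  have e4 : Ω ≤ 2 ^ n * Ω := Nat.le_mul_of_pos_left _ (by positivity)
  rw [e1] at hsum
  have e5 : Ω * 2 ^ n = 2 ^ n * Ω := mul_comm _ _
  rw [e5] at hsum
  omega

end Pool.Agent.V8H51.RG
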