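import Pool.Agent.V8H51.RG.Exists
import Pool.Agent.H554R2.Cnf.SatDefs

/-!
# Systems of clauses as instances of 3-SAT, with a gap
-/

set_option autoImplicit false

open Finset

namespace Pool.Agent.V8H51.RG

open Pool.Agent.H554R2.Sem Pool.Agent.H554R2.Cnf

/-- The variables and the clauses of the instance. -/
abbrev ZZ (n J K : ℕ) : Type := Fin n ⊕ (Fin n ⊕ (Fin J × Fin K))

section

variable {n J K : ℕ} (T : Fin J → Fin K → Fin n × Bool)

/-- The variable of the literal in position `p` of the clause `z`. -/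
def lv (z : ZZ n J K) (p : Fin 3) : ZZ n J K :=
  match z with
  | Sum.inl i => if p = 0 then Sum.inl i else Sum.inr (Sum.inl i)
  | Sum.inr (Sum.inl i) => Sum.inr (Sum.inl i)
  | Sum.inr (Sum.inr (j, s)) =>
    if p = 0 then Sum.inl (T j s).1
    else if p = 1 then (if s.val = 0 then Sum.inl (T j s).1
      else Sum.inr (Sum.inr (j, ⟨s.val - 1, by omega⟩)))
    else (if s.val + 1 = K then Sum.inl (T j s).1 else Sum.inr (Sum.inr (j, s)))

/-- The sign of this literal. -/
def ls (z : ZZ n J K) (p : Fin 3) : Bool :=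
  match z with
  | Sum.inl _ => true
  | Sum.inr (Sum.inl _) => false
  | Sum.inr (Sum.inr (j, s)) =>
    if p = 0 then (T j s).2
    else if p = 1 then (if s.val = 0 then (T j s).2 else false)
    else (if s.val + 1 = K then (T j s).2 else true)

/-- The sign, with the bits of `x`. -/
def sx (x : Pt n) (z : ZZ n J K) (p : Fin 3) : Bool :=
  match z with
  | Sum.inl i => if p = 0 then x i else true
  | z => ls T z p

/-- The clause `z` is satisfied. -/
def OK (x : Pt n) (β : ZZ n J K → Bool) (z : ZZ n J K) : Prop :=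
  ∃ p, β (lv T z p) = sx T x z p

variable {T}

theorem ok_inl {x : Pt n} {β : ZZ n J K → Bool} {i : Fin n} :
    OK T x β (Sum.inl i) ↔ β (Sum.inl i) = x i ∨ β (Sum.inr (Sum.inl i)) = true := by
  constructor
  · rintro ⟨p, hp⟩
    by_cases h0 : p = 0
    · left
      simpa [lv, sx, h0] using hp
    · right
      simpa [lv, sx, h0] using hp
  · rintro (h | h)
    · exact ⟨0, by simpa [lv, sx] using h⟩
    · exact ⟨1, by simpa [lv, sx] using h⟩

theorem ok_inr {x : Pt n} {β : ZZ n J K → Bool} {i : Fin n} :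
    OK T x β (Sum.inr (Sum.inl i)) ↔ β (Sum.inr (Sum.inl i)) = false := by
  constructor
  · rintro ⟨p, hp⟩
    simpa [lv, sx, ls] using hp
  · intro h
    exact ⟨0, by simpa [lv, sx, ls] using h⟩

theorem ok_chain {x : Pt n} {β : ZZ n J K → Bool} {j : Fin J} {s : Fin K} :
    OK T x β (Sum.inr (Sum.inr (j, s))) ↔ (β (Sum.inl (T j s).1) = (T j s).2 ∨
      (s.val ≠ 0 ∧ β (Sum.inr (Sum.inr (j, ⟨s.val - 1, by omega⟩))) = false) ∨
      (s.val + 1 ≠ K ∧ β (Sum.inr (Sum.inr (j, s))) = true)) := by
  constructor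
  · rintro ⟨p, hp⟩
    by_cases h0 : p = 0
    · left
      simpa [lv, sx, ls, h0] using hp
    · by_cases h1 : p = 1
      · by_cases hs : s.val = 0
        · left
          simpa [lv, sx, ls, h1, hs] using hp
        · right; left
          exact ⟨hs, by simpa [lv, sx, ls, h1, hs] using hp⟩
      · by_cases hs : s.val + 1 = K
        · left
          simp only [lv, sx, ls, if_neg h0, if_neg h1, if_pos hs] at hp
          exact hp
        · right; right
          refine ⟨hs, ?_⟩
          simp only [lv, sx, ls, if_neg h0, if_neg h1, if_neg hs] at hp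
          exact hp
  · rintro (h | ⟨hs, h⟩ | ⟨hs, h⟩)
    · exact ⟨0, by simpa [lv, sx, ls] using h⟩
    · exact ⟨1, by simpa [lv, sx, ls, hs] using h⟩
    · refine ⟨2, ?_⟩
      have h20 : (2 : Fin 3) ≠ 0 := by decide
      have h21 : (2 : Fin 3) ≠ 1 := by decide
      simp only [lv, sx, ls, if_neg h20, if_neg h21, if_neg hs]
      exact h

theorem chain_fail (hK : 0 < K) {x : Pt n} {β : ZZ n J K → Bool} {j : Fin J}
    (h : ∀ s, β (Sum.inl (T j s).1) ≠ (T j s).2) :
    ∃ s : Fin K, ¬ OK T x β (Sum.inr (Sum.inr (j, s))) := by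
  by_contra hc
  push Not at hc
  have key : ∀ t : ℕ, ∀ ht : t < K, t + 1 ≠ K →
      β (Sum.inr (Sum.inr (j, ⟨t, ht⟩))) = true := by
    intro t
    induction t with
    | zero =>
      intro ht h1
      rcases ok_chain.1 (hc ⟨0, ht⟩) with h2 | ⟨h2, -⟩ | ⟨-, h2⟩
      · exact absurd h2 (h _)
      · exact absurd rfl h2
      · exact h2
    | succ t ih =>
      intro ht h1
      rcases ok_chain.1 (hc ⟨t + 1, ht⟩) with h2 | ⟨-, h2⟩ | ⟨-, h2⟩
      · exact absurd h2 (h _)
      · have h3 := ih (by omega) (by omega)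
        have h4 : (⟨t + 1 - 1, by omega⟩ : Fin K) = ⟨t, by omega⟩ := rfl
        rw [h4, h3] at h2
        cases h2
      · exact h2
  rcases ok_chain.1 (hc ⟨K - 1, by omega⟩) with h2 | ⟨h3, h2⟩ | ⟨h3, -⟩
  · exact absurd h2 (h _)
  · have h5 := key (K - 1 - 1) (by omega) (by simp only [ne_eq] at h3; omega)
    rw [h5] at h2
    cases h2
  · simp only [ne_eq] at h3
    omega

/-- satisfiable -/
theorem sat_of (x : Pt n) (hx : ∀ j, ¬ Fails (T j) x) :
    ∃ β : ZZ n J K → Bool, ∀ z, OK T x β z := by
  classical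
  refine ⟨fun z => match z with
    | Sum.inl i => x i
    | Sum.inr (Sum.inl _) => false
    | Sum.inr (Sum.inr (j, s)) => decide (∀ t : Fin K, t ≤ s → x (T j t).1 ≠ (T j t).2), ?_⟩
  rintro (i | i | ⟨j, s⟩)
  · rw [ok_inl]
    left; rfl
  · rw [ok_inr]
  · rw [ok_chain]
    by_cases h1 : x (T j s).1 = (T j s).2
    · left; exact h1
    · by_cases h2 : ∀ t : Fin K, t ≤ s → x (T j t).1 ≠ (T j t).2
      · right; right
        refine ⟨fun h3 => ?_, by simpa using h2⟩
        apply hx j
        intro t
        exact h2 t (Fin.le_def.2 (by omega))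
      · right; left
        push Not at h2
        obtain ⟨t, ht1, ht2⟩ := h2
        have hts : t ≠ s := by
          intro e
          rw [e] at ht2
          exact h1 ht2
        have hlt : t.val < s.val := lt_of_le_of_ne (Fin.le_def.1 ht1) (fun e => hts (Fin.ext e))
        refine ⟨by omega, ?_⟩
        simp only [decide_eq_false_iff_not]
        intro h4
        exact h4 t (Fin.le_def.2 (by simp only; omega)) ht2

open Classical in
/-- the gap -/
theorem gap_of (hK : 0 < K) {h w₂ : ℕ} (hT : ∀ Y : Finset (Fin n), Y.card ≤ w₂ → touch T Y < h)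
    (x : Pt n) (hx : 2 * h ≤ (univ.filter (fun j => Fails (T j) x)).card)
    (β : ZZ n J K → Bool) :
    min (w₂ + 1) h ≤ (univ.filter (fun z => ¬ OK T x β z)).card := by
  obtain ⟨Y, hY⟩ : ∃ Y : Finset (Fin n), Y = univ.filter (fun i => β (Sum.inl i) ≠ x i) :=
    ⟨_, rfl⟩
  have hYF : Y.card ≤ (univ.filter (fun z => ¬ OK T x β z)).card := by
    refine Finset.card_le_card_of_injOn
      (fun i => if β (Sum.inr (Sum.inl i)) = true then Sum.inr (Sum.inl i) else Sum.inl i) ?_ ?_
    · intro i hi
      have hi' : β (Sum.inl i) ≠ x i := by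
        rw [hY] at hi
        exact (Finset.mem_filter.1 (Finset.mem_coe.1 hi)).2
      rw [Finset.mem_coe, Finset.mem_filter]
      refine ⟨mem_univ _, ?_⟩
      by_cases hb : β (Sum.inr (Sum.inl i)) = true
      · simp only [if_pos hb]
        rw [ok_inr, hb]
        simp
      · simp only [if_neg hb]
        rw [ok_inl]
        push Not
        exact ⟨hi', by simpa using hb⟩
    · intro i _ i' _ hii
      simp only at hii
      split_ifs at hii
      · exact Sum.inl_injective (Sum.inr_injective hii)
      · exact Sum.inl_injective hii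
  rcases Nat.lt_or_ge w₂ Y.card with h1 | h1
  · exact (min_le_left _ _).trans (by omega)
  · refine (min_le_right _ _).trans ?_
    have h2 := hT Y h1
    -- clauses which fail and are not touched
    obtain ⟨Fl, hFl⟩ : ∃ Fl : Finset (Fin J), Fl = univ.filter (fun j => Fails (T j) x) :=
      ⟨_, rfl⟩
    obtain ⟨To, hTo⟩ : ∃ To : Finset (Fin J), To = univ.filter (fun j => ∃ s, (T j s).1 ∈ Y) :=
      ⟨_, rfl⟩
    rw [← hFl] at hx
    have h3 : To.card ≤ touch T Y := by
      have h4 : To ⊆ (univ.filter (fun p : Fin J × Fin K => (T p.1 p.2).1 ∈ Y)).image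
          Prod.fst := by
        intro j hj
        rw [hTo] at hj
        obtain ⟨s, hs⟩ := (Finset.mem_filter.1 hj).2
        exact Finset.mem_image.2 ⟨(j, s), Finset.mem_filter.2 ⟨mem_univ _, hs⟩, rfl⟩
      exact (card_le_card h4).trans card_image_le
    have h5 : h ≤ (Fl \ To).card := by
      have h6 := Finset.le_card_sdiff To Fl
      omega
    refine h5.trans ?_
    have h6 : ∀ j ∈ Fl \ To, ∃ s : Fin K, ¬ OK T x β (Sum.inr (Sum.inr (j, s))) := by
      intro j hj
      rw [Finset.mem_sdiff, hFl, hTo, Finset.mem_filter, Finset.mem_filter] at hj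
      obtain ⟨⟨-, h7⟩, h8⟩ := hj
      refine chain_fail hK (fun s => ?_)
      have h9 : (T j s).1 ∉ Y := fun h => h8 ⟨mem_univ _, s, h⟩
      rw [hY, Finset.mem_filter] at h9
      have h10 : β (Sum.inl (T j s).1) = x (T j s).1 := by
        by_contra hc
        exact h9 ⟨mem_univ _, hc⟩
      rw [h10]
      exact h7 s
    have : Nonempty (Fin K) := ⟨⟨0, hK⟩⟩
    choose! f hf using h6
    refine Finset.card_le_card_of_injOn (fun j => Sum.inr (Sum.inr (j, f j))) ?_ ?_
    · intro j hj
      rw [Finset.mem_coe, Finset.mem_filter]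
      exact ⟨mem_univ _, hf j hj⟩
    · intro j _ j' _ hjj
      have h7 := Sum.inr_injective (Sum.inr_injective hjj)
      exact (Prod.mk.inj h7).1

/-- the converse of `sat_of` -/
theorem of_sat (hK : 0 < K) (x : Pt n) (β : ZZ n J K → Bool) (hβ : ∀ z, OK T x β z) :
    ∀ j, ¬ Fails (T j) x := by
  intro j hj
  have h1 : ∀ i, β (Sum.inl i) = x i := by
    intro i
    rcases ok_inl.1 (hβ (Sum.inl i)) with h | h
    · exact h
    · have h2 := ok_inr.1 (hβ (Sum.inr (Sum.inl i)))
      rw [h] at h2
      cases h2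
  obtain ⟨s, hs⟩ := chain_fail (T := T) hK (x := x) (β := β) (j := j) (fun s => by
    rw [h1]
    exact hj s)
  exact hs (hβ _)

end

open Classical in
/-- Every assignment falsifies at least `t` of the clauses. -/
def Far {M ℓ : ℕ} (t : ℕ) (w : Idx M ℓ → Bool) : Prop :=
  ∀ α : (Fin ℓ → Bool) → Bool, t ≤ (univ.filter (fun c : Fin M =>
    ∀ p : Fin 3, α (fun j => w (c, p, some j)) ≠ w (c, p, none))).card

theorem Far.mono {M ℓ t t' : ℕ} {w : Idx M ℓ → Bool} (h : Far t w) (ht : t' ≤ t) : Far t' w :=
  fun α => ht.trans (h α)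

theorem redG {n J K M ℓ : ℕ} (T : Fin J → Fin K → Fin n × Bool) (hK : 0 < K)
    (hM : n + (n + J * K) ≤ M) (hℓ : n + (n + J * K) ≤ 2 ^ ℓ) (a : Fin n ↪ Fin M) :
    ∃ b : Idx M ℓ → Bool, ∀ x : Pt n,
      (Sat3 (plug (fun i => sgn ℓ (a i)) b x) ↔ x ∈ CF T) ∧
      ∀ h w₂ : ℕ, (∀ Y : Finset (Fin n), Y.card ≤ w₂ → touch T Y < h) → x ∉ CG (2 * h) T →
        Far (min (w₂ + 1) h) (plug (fun i => sgn ℓ (a i)) b x) := by
  classical
  have hcZ : Fintype.card (ZZ n J K) = n + (n + J * K) := by
    simp only [Fintype.card_sum, Fintype.card_prod, Fintype.card_fin]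
  have hc1 : Fintype.card (Fin n ⊕ (Fin J × Fin K)) ≤
      Fintype.card {c : Fin M // c ∉ Set.range a} := by
    rw [Fintype.card_subtype_compl, Fintype.card_fin]
    have h1 : Fintype.card {c : Fin M // c ∈ Set.range a} = n := by
      have h2 := Set.card_range_of_injective a.injective
      rw [Fintype.card_fin] at h2
      exact (Fintype.card_congr (Equiv.refl _)).trans h2
    rw [h1]
    simp only [Fintype.card_sum, Fintype.card_prod, Fintype.card_fin]
    omega
  have hc2 : Fintype.card (ZZ n J K) ≤ Fintype.card (Fin ℓ → Bool) := by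
    rw [hcZ]; simpa using hℓ
  obtain ⟨eY⟩ := Function.Embedding.nonempty_of_card_le hc1
  obtain ⟨nm⟩ := Function.Embedding.nonempty_of_card_le hc2
  obtain ⟨e, he⟩ : ∃ e : ZZ n J K → Fin M, e = Sum.elim (fun i => a i) (fun y => (eY y).1) :=
    ⟨_, rfl⟩
  have he1 : ∀ i, e (Sum.inl i) = a i := by intro i; rw [he]; rfl
  have he2 : ∀ y i, e (Sum.inr y) ≠ a i := by
    intro y i h
    rw [he] at h
    exact (eY y).2 ⟨i, h.symm⟩
  have hinj : Function.Injective e := by
    rintro (i | y) (i' | y') h
    · rw [he1, he1] at h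
      rw [a.injective h]
    · rw [he1] at h
      exact absurd h.symm (he2 _ _)
    · rw [he1] at h
      exact absurd h (he2 _ _)
    · rw [he] at h
      have h1 : eY y = eY y' := Subtype.ext h
      rw [eY.injective h1]
  obtain ⟨ie, hie1, hie2⟩ : ∃ ie : Fin M → Option (ZZ n J K), (∀ z, ie (e z) = some z) ∧
      ∀ c, (∀ z, e z ≠ c) → ie c = none := by
    refine ⟨fun c => if h : ∃ z, e z = c then some h.choose else none, ?_, ?_⟩
    · intro z
      have h : ∃ z', e z' = e z := ⟨z, rfl⟩
      simp only [dif_pos h]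
      exact congrArg some (hinj h.choose_spec)
    · intro c hc
      have h : ¬ ∃ z', e z' = c := by
        rintro ⟨z, hz⟩
        exact hc z hz
      simp only [dif_neg h]
  obtain ⟨b, hb1, hb2, hb3, hb4⟩ : ∃ b : Idx M ℓ → Bool,
      (∀ c p j z, ie c = some z → b (c, p, some j) = nm (lv T z p) j) ∧
      (∀ c p z, ie c = some z → b (c, p, none) = ls T z p) ∧
      (∀ c p j, ie c = none → b (c, p, some j) = false) ∧
      (∀ c p, ie c = none → b (c, p, none) = decide (p = 0)) := by
    refine ⟨fun v => match v with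
      | (c, p, some j) => match ie c with
        | some z => nm (lv T z p) j
        | none => false
      | (c, p, none) => match ie c with
        | some z => ls T z p
        | none => decide (p = 0), ?_, ?_, ?_, ?_⟩
    · intro c p j z h
      simp only [h]
    · intro c p z h
      simp only [h]
    · intro c p j h
      simp only [h]
    · intro c p h
      simp only [h]
  refine ⟨b, fun x => ?_⟩
  obtain ⟨P, hP⟩ : ∃ P : Fin n → Idx M ℓ, P = fun i => sgn ℓ (a i) := ⟨_, rfl⟩
  have hPi : ∀ i, P i = (a i, 0, none) := by intro i; rw [hP]; rfl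
  have hPinj : Function.Injective P := by
    intro i j hij
    rw [hPi, hPi] at hij
    exact a.injective (congrArg Prod.fst hij)
  rw [← hP]
  obtain ⟨w, hw⟩ : ∃ w : Idx M ℓ → Bool, w = plug P b x := ⟨_, rfl⟩
  rw [← hw]
  have hname : ∀ z p, (fun j => w (e z, p, some j)) = nm (lv T z p) := by
    intro z p
    funext j
    rw [hw, plug_other, hb1 _ _ _ z (hie1 z)]
    intro i hi
    rw [hPi] at hi
    simp at hi
  have hsign : ∀ z p, w (e z, p, none) = sx T x z p := by
    rintro (i | y) p
    · by_cases h0 : p = 0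
      · subst h0
        rw [hw, he1, ← hPi i, plug_apply _ hPinj]
        simp [sx]
      · rw [hw, plug_other, hb2 _ _ _ (hie1 _)]
        · simp [sx, ls, h0]
        · intro i' hi
          rw [hPi] at hi
          simp only [Prod.mk.injEq] at hi
          exact h0 hi.2.1.symm
    · rw [hw, plug_other, hb2 _ _ _ (hie1 _)]
      · rfl
      · intro i' hi
        rw [hPi] at hi
        simp only [Prod.mk.injEq] at hi
        exact he2 y i' hi.1.symm
  have hok : ∀ (α : (Fin ℓ → Bool) → Bool) z,
      (∃ p : Fin 3, α (fun j => w (e z, p, some j)) = w (e z, p, none)) ↔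
        OK T x (fun z => α (nm z)) z := by
    intro α z
    unfold OK
    refine exists_congr fun p => ?_
    rw [hname, hsign]
  have htriv : ∀ (α : (Fin ℓ → Bool) → Bool) c, (∀ z, e z ≠ c) →
      ∃ p : Fin 3, α (fun j => w (c, p, some j)) = w (c, p, none) := by
    intro α c hc
    have h1 : ∀ p, (fun j => w (c, p, some j)) = fun _ => false := by
      intro p
      funext j
      rw [hw, plug_other, hb3 _ _ _ (hie2 c hc)]
      intro i hi
      rw [hPi] at hi
      simp at hi
    have h2 : ∀ p, w (c, p, none) = decide (p = 0) := by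
      intro p
      rw [hw, plug_other, hb4 _ _ (hie2 c hc)]
      intro i hi
      rw [hPi] at hi
      simp only [Prod.mk.injEq] at hi
      exact hc (Sum.inl i) (by rw [he1]; exact hi.1)
    cases hα : α (fun _ => false) with
    | true => exact ⟨0, by rw [h1, h2, hα]; simp⟩
    | false => exact ⟨1, by rw [h1, h2, hα]; simp⟩
  refine ⟨?_, ?_⟩
  · have hCF : x ∈ CF T ↔ ∀ j, ¬ Fails (T j) x := by
      unfold CF
      simp
    rw [hCF]
    constructor
    · rintro ⟨α, hα⟩
      exact of_sat hK x (fun z => α (nm z)) (fun z => (hok α z).1 (hα (e z)))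
    · intro hx
      obtain ⟨β, hβ⟩ := sat_of (T := T) x hx
      have : Nonempty (ZZ n J K) ∨ IsEmpty (ZZ n J K) := by
        rcases isEmpty_or_nonempty (ZZ n J K) with h | h
        · exact Or.inr h
        · exact Or.inl h
      rcases this with hne | hem
      · refine ⟨fun v => β (Function.invFun nm v), fun c => ?_⟩
        by_cases hc : ∃ z, e z = c
        · obtain ⟨z, rfl⟩ := hc
          have h3 : (fun z => β (Function.invFun nm (nm z))) = β := by
            funext z
            rw [Function.leftInverse_invFun nm.injective z]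
          have h4 := (hok (fun v => β (Function.invFun nm v)) z).2 (by
            simp only [h3]
            exact hβ z)
          exact h4
        · exact htriv (fun v => β (Function.invFun nm v)) c (fun z hz => hc ⟨z, hz⟩)
      · exact ⟨fun _ => true, fun c => htriv (fun _ => true) c (fun z => hem.elim z)⟩
  · intro h w₂ hT hx α
    rw [mem_CG, not_lt] at hx
    refine (gap_of hK hT x hx (fun z => α (nm z))).trans ?_
    refine Finset.card_le_card_of_injOn e ?_ hinj.injOn
    intro z hz
    rw [Finset.mem_coe, Finset.mem_filter] at hz ⊢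
    refine ⟨mem_univ _, fun p hp => hz.2 ?_⟩
    exact (hok α z).1 ⟨p, hp⟩

end Pool.Agent.V8H51.RG
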