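import Pool.Agent.V8H51.RG.Gap
import Pool.Agent.V8H51.RG.Red
import Pool.Agent.V8H51.RS.SatR

/-!
# Gap 3-SAT is hard for programs with recursion which read linearly many bits
-/

set_option autoImplicit false

open Finset

namespace Pool.Agent.V8H51.RG

open Pool.Agent.H554R2.Sem Pool.Agent.H554R2.Cnf Pool.Agent.H538R4.SP Pool.Agent.V8H51.RS

theorem finalG (k : ℕ) : ∃ D : ℕ, 0 < D ∧ ∀ (n M ℓ : ℕ) (a : Fin n ↪ Fin M), D * n ≤ M →
    D * n ≤ 2 ^ ℓ → ∃ b : Idx M ℓ → Bool, ∀ (R : Type) [Fintype R] [Nonempty R]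
      (U : R → Prog (Idx M ℓ)),
      (∀ r (x : Pt n) L, (U r).Accepts (plug (fun i => sgn ℓ (a i)) b x) L →
        ¬ Far (n / D) (plug (fun i => sgn ℓ (a i)) b x)) →
      Nat.card R * Nat.card {x : Pt n // Sat3 (plug (fun i => sgn ℓ (a i)) b x)} ≤ 2 ^ (n / D) *
        Nat.card {u : R × Pt n // Sat3 (plug (fun i => sgn ℓ (a i)) b u.2) ∧
          ∃ L, (U u.1).Accepts (plug (fun i => sgn ℓ (a i)) b u.2) L ∧
          ∑ i, L.count (sgn ℓ (a i)) ≤ k * n} →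
      ∃ r, 2 ^ (n / D) ≤ Fintype.card (U r).State := by
  classical
  obtain ⟨D1, K, hD1, hK, h1⟩ := final_gapR k
  refine ⟨2 * D1 + D1 * K + 2, by omega, fun n M ℓ a hM hℓ => ?_⟩
  set D := 2 * D1 + D1 * K + 2 with hD
  rcases Nat.eq_zero_or_pos (n / D) with h0 | hpos
  · rw [h0]
    exact ⟨fun _ => true, fun R _ _ U _ _ =>
      ⟨Classical.arbitrary R, Fintype.card_pos_iff.2 ⟨(U _).start⟩⟩⟩
  have hnD : D ≤ n := by
    by_contra hlt
    push Not at hlt
    rw [Nat.div_eq_of_lt hlt] at hpos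
    omega
  obtain ⟨J, h, w₂, T, hT1, hT2, hT3, hT4, hT5⟩ := h1 n (by omega)
  have hsz : n + (n + J * K) ≤ D * n := by
    have h2 : J * K ≤ D1 * n * K := Nat.mul_le_mul_right _ hT1
    have h3 : D * n = 2 * D1 * n + D1 * n * K + 2 * n := by rw [hD]; ring
    omega
  obtain ⟨b, hb⟩ := redG T hK (hsz.trans hM) (hsz.trans hℓ) a
  refine ⟨b, fun R _ _ U hU hl => ?_⟩
  have hp : Function.Injective (fun i => (sgn ℓ (a i) : Idx M ℓ)) :=
    fun i j h => a.injective (sgn_inj h)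
  have hq1 : n / D ≤ n / (2 * D1) := Nat.div_le_div_left (by omega) (by omega)
  have hq : n / D + 1 ≤ n / D1 := by
    have h3 : 2 * (n / (2 * D1)) ≤ n / D1 := by
      rw [Nat.le_div_iff_mul_le hD1]
      calc 2 * (n / (2 * D1)) * D1 = 2 * D1 * (n / (2 * D1)) := by ring
        _ ≤ n := Nat.mul_div_le n _
    omega
  have hgap : n / D ≤ min (w₂ + 1) h := by
    have h2 : n / D ≤ n / D1 := by omega
    have h3 : n / D1 ≤ h := Nat.div_le_of_le_mul hT2
    have h4 : n / D1 ≤ w₂ + 1 := Nat.div_le_of_le_mul hT3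
    exact le_min (by omega) (by omega)
  obtain ⟨r, hr⟩ := averageR
    (fun r (x : Pt n) => Sat3 (plug (fun i => sgn ℓ (a i)) b x) ∧
      ∃ L, (U r).Accepts (plug (fun i => sgn ℓ (a i)) b x) L ∧
          ∑ i, L.count (sgn ℓ (a i)) ≤ k * n) (n / D) _ hl
  refine ⟨r, ?_⟩
  by_contra hlt
  push Not at hlt
  have hc : Fintype.card (fixR (fun i => sgn ℓ (a i)) b (U r)).State =
      Fintype.card (U r).State + 1 := Fintype.card_option
  have h5 := hT5 (fixR (fun i => sgn ℓ (a i)) b (U r)) (by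
    rw [hc]
    calc Fintype.card (U r).State + 1 ≤ 2 ^ (n / D) := hlt
      _ < 2 ^ (n / D + 1) := Nat.pow_lt_pow_right (by norm_num) (Nat.lt_succ_self _)
      _ ≤ 2 ^ (n / D1) := Nat.pow_le_pow_right (by norm_num) hq) (by
    rintro x l ⟨o, ⟨r', rfl, hr'⟩, h3⟩
    obtain ⟨r2, L, h4, h5⟩ := fixR_sound hp h3 (U r).start rfl
    rw [← Option.some_injective _ h4] at h5
    by_contra hx
    exact hU r x L ⟨r', hr', h5⟩ (((hb x).2 h w₂ hT4 hx).mono hgap))
  have e1 : Nat.card {x : Pt n // Sat3 (plug (fun i => sgn ℓ (a i)) b x)} =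
      Nat.card {x // x ∈ CF T} :=
    Nat.card_congr (Equiv.subtypeEquivRight (fun x => (hb x).1))
  have h6 : Nat.card {x : Pt n // Sat3 (plug (fun i => sgn ℓ (a i)) b x) ∧
      ∃ L, (U r).Accepts (plug (fun i => sgn ℓ (a i)) b x) L ∧
        ∑ i, L.count (sgn ℓ (a i)) ≤ k * n} ≤
      Nat.card {x // x ∈ CF T ∧ ∃ l, (fixR (fun i => sgn ℓ (a i)) b (U r)).Accepts x l ∧
        l.length ≤ k * n} := by
    refine Nat.card_le_card_of_injective (fun y => ⟨y.1, ?_⟩) ?_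
    · obtain ⟨hs, L, ⟨r', h4, h5⟩, h6⟩ := y.2
      exact ⟨((hb y.1).1).1 hs, L.filterMap (idx (fun i => sgn ℓ (a i))),
        ⟨some r', ⟨r', rfl, h4⟩, fixR_complete hp h5⟩, by rw [idx_length _ hp]; exact h6⟩
    · intro y z hyz
      exact Subtype.ext (by simpa using hyz)
  rw [e1] at hr
  have h7 := hr.trans (Nat.mul_le_mul_left _ h6)
  have h8 : 2 ^ (n / D) ≤ 2 ^ (n / D1) := Nat.pow_le_pow_right (by norm_num) (by omega)
  exact absurd (h7.trans (Nat.mul_le_mul_right _ h8)) (not_le.2 h5)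

end Pool.Agent.V8H51.RG
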