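import Pool.Agent.V8H51.RG.Exists
import Pool.Agent.V8H51.RS.Blocks
import Pool.Agent.H554R2.Lin.CnfLin

/-!
# Systems of clauses which are hard with a gap for programs with recursion
-/

set_option autoImplicit false

open Finset

namespace Pool.Agent.V8H51.RG

open Pool.Agent.H554R2.Sem Pool.Agent.H554R2.Cnf Pool.Agent.H554R2.Lin Pool.Agent.V8H51.RS

theorem gap_num1 {N h n m : ℕ} (hN : 0 < N) (hh0 : 1 ≤ h) (hm : m = 1024 * N)
    (hh1 : n ≤ 512 * N * h) : 2 * m * n + 32 * (2 * h) + n + 4 ≤ m ^ 2 * (2 * h) := by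
  have h1 : 2 * m * n ≤ 2 * m * (512 * N * h) := Nat.mul_le_mul_left _ hh1
  have h2 : 2 * m * (512 * N * h) = 1048576 * (N * N * h) := by rw [hm]; ring
  have h3 : m ^ 2 * (2 * h) = 2097152 * (N * N * h) := by rw [hm]; ring
  have h4 : N * h ≤ N * N * h := by
    rw [mul_assoc]
    exact Nat.le_mul_of_pos_left _ hN
  have h5 : h ≤ N * h := Nat.le_mul_of_pos_left _ hN
  have h6 : 512 * N * h = 512 * (N * h) := by ring
  omega

/-- random clauses with a gap -/
theorem exists_gap (Q N : ℕ) (hQ : 0 < Q) (hN : 0 < N) : ∃ D K : ℕ, 0 < D ∧ 0 < K ∧ ∀ n ≥ D,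
    ∃ (J h w₂ : ℕ) (T : Fin J → Fin K → Fin n × Bool), J ≤ D * n ∧ n ≤ D * h ∧
      n ≤ D * (w₂ + 1) ∧ 2 ^ n ≤ 2 ^ (8 * (n / (32 * N)) + 1) * (CF T).card ∧
      NoRect (CG (2 * h) T) (2 ^ (n / (2 * Q))) ∧
      ∀ Y : Finset (Fin n), Y.card ≤ w₂ → touch T Y < h := by
  classical
  obtain ⟨W, hW, hball⟩ := ball_le Q hQ
  obtain ⟨m, hm⟩ : ∃ m : ℕ, m = 1024 * N := ⟨_, rfl⟩
  obtain ⟨K, hK⟩ : ∃ K : ℕ, K = 2 * W * m := ⟨_, rfl⟩
  obtain ⟨A, hA⟩ : ∃ A : ℕ, A = 2048 * N + 68 := ⟨_, rfl⟩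
  have h2K : 0 < 2 ^ K := by positivity
  obtain ⟨E, hE⟩ : ∃ E : ℕ, E = 8 * Q * (m + 2) := ⟨_, rfl⟩
  obtain ⟨C₂, hC₂⟩ : ∃ C₂ : ℕ, C₂ = 2 ^ A * K * 2 ^ K := ⟨_, rfl⟩
  have hm0 : 0 < m := by omega
  have hmK : m ≤ K := by
    rw [hK]; nlinarith
  have hK0 : 0 < K := by omega
  have hC₂0 : 0 < C₂ := by rw [hC₂]; positivity
  obtain ⟨D, hD⟩ : ∃ D : ℕ, D = 2 ^ K + C₂ + 512 * N + 2 * W + E + 16 := ⟨_, rfl⟩
  refine ⟨D, K, by omega, hK0, fun n hn => ?_⟩
  have hn1 : 0 < n := by omega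
  obtain ⟨h, hh⟩ : ∃ h : ℕ, h = n / (256 * N) := ⟨_, rfl⟩
  have hh1 : n ≤ 512 * N * h := by
    have h1 : n < 256 * N * (h + 1) := by rw [hh]; exact Nat.lt_mul_div_succ n (by omega)
    have h2 : 256 * N ≤ n := by omega
    have h3 : 1 ≤ h := by
      rw [hh]
      exact (Nat.one_le_div_iff (by omega)).2 h2
    nlinarith
  have hh2 : 256 * N * h ≤ n := by rw [hh]; exact Nat.mul_div_le n (256 * N)
  have hh0 : 1 ≤ h := by
    rcases Nat.eq_zero_or_pos h with h0 | h0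
    · rw [h0] at hh1; omega
    · exact h0
  have hh3 : 32 * h ≤ n := le_trans (Nat.mul_le_mul_right h (by omega)) hh2
  set w := n / W with hw
  have hw1 : n ≤ 2 * W * w := by
    have h1 : n < W * (w + 1) := Nat.lt_mul_div_succ n hW
    have h2 : 2 * W ≤ n := by omega
    nlinarith
  have hw2 : w ≤ n := Nat.div_le_self _ _
  -- the parameters
  have c1 : m * (n - w) ^ K ≤ n ^ K := by
    rcases Nat.eq_or_lt_of_le hw2 with h | h
    · rw [h, Nat.sub_self, zero_pow (by omega)]; simp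
    · have h1 : (0 : ℝ) < ((n - w : ℕ) : ℝ) := by
        have : 0 < n - w := by omega
        exact_mod_cast this
      have h2 : (n : ℝ) = ((n - w : ℕ) : ℝ) * (1 + (w : ℝ) / ((n - w : ℕ) : ℝ)) := by
        rw [mul_add, mul_div_cancel₀ _ h1.ne']
        rw [Nat.cast_sub hw2]; ring
      have h3 := one_add_mul_le_pow (a := (w : ℝ) / ((n - w : ℕ) : ℝ))
        (by have : (0 : ℝ) ≤ (w : ℝ) / ((n - w : ℕ) : ℝ) := by positivity
            linarith) K
      have h4 : (m : ℝ) ≤ 1 + (K : ℝ) * ((w : ℝ) / ((n - w : ℕ) : ℝ)) := by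
        have h5 : (m : ℝ) * ((n - w : ℕ) : ℝ) ≤ K * w := by
          have h6 : m * (n - w) ≤ K * w := by
            calc m * (n - w) ≤ m * n := Nat.mul_le_mul_left _ (Nat.sub_le _ _)
              _ ≤ m * (2 * W * w) := Nat.mul_le_mul_left _ hw1
              _ = K * w := by rw [hK]; ring
          exact_mod_cast h6
        have h7 : (m : ℝ) ≤ (K : ℝ) * ((w : ℝ) / ((n - w : ℕ) : ℝ)) := by
          rw [← mul_div_assoc, le_div_iff₀ h1]; exact h5
        linarith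
      have h8 : (m : ℝ) * ((n - w : ℕ) : ℝ) ^ K ≤ (n : ℝ) ^ K := by
        rw [h2, mul_pow, mul_comm]
        exact mul_le_mul_of_nonneg_left (h4.trans h3) (by positivity)
      exact_mod_cast h8
  have c2 : m ^ 2 ≤ 4 * 2 ^ K := by
    have h1 : m ^ 2 ≤ 4 * 2 ^ m := by
      have : ∀ t : ℕ, t ^ 2 ≤ 4 * 2 ^ t := by
        intro t
        induction t with
        | zero => simp
        | succ t ih =>
          rcases Nat.lt_or_ge t 3 with h | h
          · interval_cases t <;> norm_num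
          · rw [pow_succ 2 t]
            nlinarith
      exact this m
    exact h1.trans (Nat.mul_le_mul_left _ (Nat.pow_le_pow_right (by norm_num) hmK))
  have c4 : 2 ^ m * ∑ j ∈ range w, n.choose j < 2 ^ (n / (2 * Q)) := by
    have h1 := hball n
    have h2 : ((2 ^ m * ∑ j ∈ range w, n.choose j : ℕ) : ℝ) < ((2 ^ (n / (2 * Q)) : ℕ) : ℝ) := by
      push_cast
      have h3 : ((∑ j ∈ range w, n.choose j : ℕ) : ℝ) = ∑ j ∈ range w, (n.choose j : ℝ) := by
        push_cast; rfl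
      rw [h3] at h1
      have hQR : (0 : ℝ) < Q := by exact_mod_cast hQ
      calc (2 : ℝ) ^ m * ∑ j ∈ range w, (n.choose j : ℝ)
          ≤ (2 : ℝ) ^ m * (2 : ℝ) ^ ((n : ℝ) / (4 * Q)) :=
            mul_le_mul_of_nonneg_left h1 (by positivity)
        _ = (2 : ℝ) ^ ((m : ℝ) + (n : ℝ) / (4 * Q)) := by
            rw [Real.rpow_add (by norm_num), Real.rpow_natCast]
        _ < (2 : ℝ) ^ (((n / (2 * Q) : ℕ) : ℝ)) := by
            apply Real.rpow_lt_rpow_of_exponent_lt (by norm_num)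
            have h4 : n < 2 * Q * (n / (2 * Q) + 1) := Nat.lt_mul_div_succ n (by omega)
            have h5 : (n : ℝ) < 2 * Q * (((n / (2 * Q) : ℕ) : ℝ) + 1) := by exact_mod_cast h4
            have h6 : (8 * Q * (m + 2) : ℝ) ≤ n := by
              have : 8 * Q * (m + 2) ≤ n := by omega
              exact_mod_cast this
            have h7 : (n : ℝ) / (2 * Q) < ((n / (2 * Q) : ℕ) : ℝ) + 1 := by
              rw [div_lt_iff₀ (by positivity)]; linarith
            have h8 : (m : ℝ) + 2 ≤ (n : ℝ) / (8 * Q) := by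
              rw [le_div_iff₀ (by positivity)]; linarith
            have h9 : (n : ℝ) / (2 * Q) = (n : ℝ) / (4 * Q) + (n : ℝ) / (8 * Q) +
                (n : ℝ) / (8 * Q) := by field_simp; ring
            have h10 : (0 : ℝ) ≤ (m : ℝ) := Nat.cast_nonneg _
            linarith
        _ = (2 : ℝ) ^ (n / (2 * Q)) := Real.rpow_natCast _ _
    exact_mod_cast h2
  have hL1 := gap_num1 hN hh0 hm hh1
  have hL2 : 3 * n + 32 * (2 * h) + n + 4 ≤ A * h := by
    have h1 : A * h = 4 * (512 * N * h) + 68 * h := by rw [hA]; ring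
    omega
  obtain ⟨w₂, hw₂⟩ : ∃ w₂ : ℕ, w₂ = n / C₂ := ⟨_, rfl⟩
  obtain ⟨J, hJ⟩ : ∃ J : ℕ, J = 16 * (2 * h) * 2 ^ K := ⟨_, rfl⟩
  have hJn : J ≤ 2 ^ K * n := by
    calc J = 2 ^ K * (32 * h) := by rw [hJ]; ring
      _ ≤ 2 ^ K * n := Nat.mul_le_mul_left _ hh3
  have hc : 2 ^ A * w₂ * (K * J) ≤ n * n := by
    calc 2 ^ A * w₂ * (K * J) ≤ 2 ^ A * w₂ * (K * (2 ^ K * n)) :=
          Nat.mul_le_mul_left _ (Nat.mul_le_mul_left _ hJn)
      _ = (C₂ * w₂) * n := by rw [hC₂]; ring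
      _ ≤ n * n := Nat.mul_le_mul_right _ (by rw [hw₂]; exact Nat.mul_div_le n C₂)
  obtain ⟨T, hT1, hT2, hT3⟩ := rg_exists (K := K) (J := J) (g := 2 * h) hn1 (by omega) c2 hJ c1
    hL1 hL2 c4 hc
  refine ⟨J, h, w₂, T, ?_, ?_, ?_, ?_, hT2, hT3⟩
  · exact hJn.trans (Nat.mul_le_mul_right _ (by omega))
  · exact hh1.trans (Nat.mul_le_mul_right _ (by omega))
  · have h1 : n < C₂ * (w₂ + 1) := by rw [hw₂]; exact Nat.lt_mul_div_succ n hC₂0
    exact h1.le.trans (Nat.mul_le_mul_right _ (by omega))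
  · refine hT1.trans (Nat.mul_le_mul_right _ (Nat.pow_le_pow_right (by norm_num) ?_))
    have h1 : 8 * h ≤ n / (32 * N) := by
      rw [Nat.le_div_iff_mul_le (by omega)]
      calc 8 * h * (32 * N) = 256 * N * h := by ring
        _ ≤ n := hh2
    omega

theorem final_gapR (k : ℕ) : ∃ D K : ℕ, 0 < D ∧ 0 < K ∧ ∀ n ≥ D,
    ∃ (J h w₂ : ℕ) (T : Fin J → Fin K → Fin n × Bool), J ≤ D * n ∧ n ≤ D * h ∧
      n ≤ D * (w₂ + 1) ∧ (∀ Y : Finset (Fin n), Y.card ≤ w₂ → touch T Y < h) ∧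
      ∀ P : Prog (Fin n), Fintype.card P.State < 2 ^ (n / D) →
        (∀ x L, P.Accepts x L → x ∈ CG (2 * h) T) →
        2 ^ (n / D) * Nat.card {x // x ∈ CF T ∧ ∃ L, P.Accepts x L ∧ L.length ≤ k * n} <
          Nat.card {x // x ∈ CF T} := by
  classical
  obtain ⟨Q, r, N, hQ, hr, hN, hmain⟩ := main_rect (8 * k + 1)
  obtain ⟨D1, K, hD1, hK, hcnf⟩ := exists_gap Q N hQ hN
  obtain ⟨E, hE⟩ : ∃ E : ℕ, E = 4 * N * (4 * r + 2) := ⟨_, rfl⟩
  obtain ⟨D, hD⟩ : ∃ D : ℕ, D = D1 + E + 4 * N + 2 * Q + r + 1 := ⟨_, rfl⟩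
  have hD0 : 0 < D := by omega
  refine ⟨D, K, hD0, hK, ?_⟩
  intro n hn
  obtain ⟨J, h, w₂, T, hT1, hT2, hT3, hCc, hCR, hT4⟩ := hcnf n (by omega)
  refine ⟨J, h, w₂, T, hT1.trans (Nat.mul_le_mul_right _ (by omega)),
    hT2.trans (Nat.mul_le_mul_right _ (by omega)), hT3.trans (Nat.mul_le_mul_right _ (by omega)),
    hT4, ?_⟩
  intro P hPs hPf
  by_contra hneg
  push Not at hneg
  set C := CF T with hC
  set G : Finset (Pt n) := C.filter (fun x => ∃ L, P.Accepts x L ∧ L.length ≤ k * n)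
    with hG
  have hGc : Nat.card {x // x ∈ C ∧ ∃ L, P.Accepts x L ∧ L.length ≤ k * n} = G.card := by
    rw [Nat.card_eq_fintype_card, Fintype.card_subtype]
    congr 1
    ext x
    simp [hG]
  have hZ : Nat.card {x : Pt n // x ∈ C} = C.card := by
    rw [Nat.card_eq_fintype_card, Fintype.card_coe]
  rw [hGc, hZ] at hneg
  -- blocks
  set s := 8 * (k * n) / r + 1 with hs
  have hs1 : 8 * (k * n) < r * s := by
    have := Nat.lt_mul_div_succ (8 * (k * n)) hr
    rw [hs]; exact this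
  have hs2 : r * s ≤ (8 * k + 1) * n := by
    have h1 := Nat.mul_div_le (8 * (k * n)) r
    have h2 : r ≤ n := by omega
    rw [hs]; nlinarith
  have hs0 : 1 ≤ s := Nat.succ_pos _
  have hs3 : 4 * (k * n) < (r + 1) * s := by
    calc 4 * (k * n) ≤ 8 * (k * n) := Nat.mul_le_mul_right _ (by norm_num)
      _ < r * s := hs1
      _ ≤ (r + 1) * s := Nat.mul_le_mul_right _ (Nat.le_succ r)
  obtain ⟨B, hB1, hB2⟩ := blocksR (P := P) (ρ := r) (s := s) (m := k * n) hr hs0 hs3 G (by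
    intro x hx
    exact (Finset.mem_filter.1 hx).2)
  -- the size
  have hnD : 1 ≤ n / D := (Nat.one_le_div_iff hD0).2 hn
  have hcard : Fintype.card (Piece P) + 1 ≤ 2 ^ (4 * (n / D)) := by
    have h1 : Fintype.card (Piece P) = Fintype.card P.State * (Fintype.card P.State *
        (Fintype.card P.State * Fintype.card P.State + 1)) := by
      rw [Fintype.card_prod, Fintype.card_prod, Fintype.card_option, Fintype.card_prod]
    rw [h1]
    have h2 : Fintype.card P.State + 1 ≤ 2 ^ (n / D) := hPs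
    have h3 : (Fintype.card P.State + 1) ^ 4 ≤ 2 ^ (4 * (n / D)) := by
      rw [mul_comm, pow_mul]
      exact Nat.pow_le_pow_left h2 4
    refine le_trans ?_ h3
    generalize Fintype.card P.State = t
    have h4 : (t + 1) ^ 4 = t * (t * (t * t + 1)) + 1 + (4 * (t * t * t) + 5 * (t * t) + 4 * t) := by
      ring
    omega
  have hexp : (8 * (n / (32 * N)) + 1) + (n / D) * (4 * r + 1) ≤ n / N := by
    rw [Nat.le_div_iff_mul_le hN]
    have h1 : 32 * N * (n / (32 * N)) ≤ n := Nat.mul_div_le n (32 * N)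
    have h2 : D * (n / D) ≤ n := Nat.mul_div_le n D
    have h3 : E * (n / D) ≤ D * (n / D) := Nat.mul_le_mul_right _ (by omega)
    have h4 : 4 * (((8 * (n / (32 * N)) + 1) + (n / D) * (4 * r + 1)) * N) ≤
        32 * N * (n / (32 * N)) + E * (n / D) := by
      rw [hE]
      have h5 : N * 1 ≤ N * (n / D) := Nat.mul_le_mul_left _ hnD
      nlinarith
    omega
  have hKbig : 2 ^ n ≤ 2 ^ (n / N) * B.K.card := by
    calc 2 ^ n ≤ 2 ^ (8 * (n / (32 * N)) + 1) * C.card := hCc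
      _ ≤ 2 ^ (8 * (n / (32 * N)) + 1) * (2 ^ (n / D) * G.card) := Nat.mul_le_mul_left _ hneg
      _ ≤ 2 ^ (8 * (n / (32 * N)) + 1) *
          (2 ^ (n / D) * ((2 ^ (4 * (n / D))) ^ r * B.K.card)) := by
          apply Nat.mul_le_mul_left
          apply Nat.mul_le_mul_left
          refine hB1.trans (Nat.mul_le_mul_right _ ?_)
          exact Nat.pow_le_pow_left hcard _
      _ = 2 ^ ((8 * (n / (32 * N)) + 1) + (n / D) * (4 * r + 1)) * B.K.card := by
          rw [← pow_mul, ← mul_assoc, ← mul_assoc, ← pow_add, ← pow_add]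
          congr 2
          ring
      _ ≤ 2 ^ (n / N) * B.K.card :=
          Nat.mul_le_mul_right _ (Nat.pow_le_pow_right (by norm_num) hexp)
  obtain ⟨a, b, g, ha, hb, hga, hgb, ⟨R⟩⟩ := hmain n (by omega) s hs2 B hKbig
  have hKC : B.K ⊆ CG (2 * h) T := by
    intro x hx
    obtain ⟨l, hl⟩ := hB2 x hx
    exact hPf x l hl
  have hlog : ∀ e : ℕ, n ≤ Q * e → 100 * g ≤ e → n / (2 * Q) ≤ e - g := by
    intro e h1 h2
    have h3 : n / (2 * Q) ≤ e / 2 := by
      rw [Nat.div_le_iff_le_mul_add_pred (by omega)]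
      have h4 : e < 2 * (e / 2) + 2 := by omega
      have h5 : Q * e ≤ Q * (2 * (e / 2) + 1) := Nat.mul_le_mul_left _ (by omega)
      have h6 : Q * (2 * (e / 2) + 1) = 2 * Q * (e / 2) + Q := by ring
      omega
    omega
  rcases norect_rect (CG (2 * h) T) B.K hKC hCR R with h' | h'
  · have h1 : 2 ^ (a - g) ≤ R.X.card := by
      have h2 := R.nX
      have h3 : 2 ^ g * 2 ^ (a - g) ≤ 2 ^ g * R.X.card := by
        rw [← pow_add]
        have : g + (a - g) = a := by omega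
        rw [this]; exact h2
      exact Nat.le_of_mul_le_mul_left h3 (by positivity)
    have h4 : 2 ^ (n / (2 * Q)) ≤ 2 ^ (a - g) := Nat.pow_le_pow_right (by norm_num) (hlog a ha hga)
    omega
  · have h1 : 2 ^ (b - g) ≤ R.Y.card := by
      have h2 := R.nY
      have h3 : 2 ^ g * 2 ^ (b - g) ≤ 2 ^ g * R.Y.card := by
        rw [← pow_add]
        have : g + (b - g) = b := by omega
        rw [this]; exact h2
      exact Nat.le_of_mul_le_mul_left h3 (by positivity)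
    have h4 : 2 ^ (n / (2 * Q)) ≤ 2 ^ (b - g) := Nat.pow_le_pow_right (by norm_num) (hlog b hb hgb)
    omega

end Pool.Agent.V8H51.RG
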